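import Pool.Agent.RTP.GMain
import Pool.Agent.RTP.GAlt

/-!
# `RCA_0`: `RT^2_2(p)` implies `RT^2_2` for a large class of separable permutations `p`
-/

namespace Pool.Agent.Results.MP_29428b_lc.LargeSeparableClass

open RT22P

/-- In every model `(M, S)` of `RCA_0`, `RT^2_2(p)` implies `RT^2_2` for every permutation `p` in the
least class `G_1` which contains the one point permutation and is closed under all skew sums and
under `(a, b)` to `a ⊕ b` with `a` in `C_1`, for every `p` in the complement class `G_0`, for every `p`
which is built by direct and skew sums with at most five alternating levels, and for every separable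
`p` with at most six points. -/
theorem result (M : Type) [Zero M] [One M] [Add M] [Mul M] [LT M] (S : Set (Set M))
    (hS : IsRCA0 S) (p : List ℕ)
    (hp : InG1 p ∨ InG0 p ∨ Alt true 5 p ∨ Alt false 5 p ∨ (Separable p ∧ p.length ≤ 6))
    (h : RT22p S p) : RT22 S := by
  refine final_G hS ?_ h
  rcases hp with h1 | h1 | h1 | h1 | ⟨h1, h2⟩
  · exact Or.inl h1
  · exact Or.inr h1
  · exact Or.inr h1.inG0
  · exact Or.inl h1.inG1
  · exact inG_of_small h1 h2

end Pool.Agent.Results.MP_29428b_lc.LargeSeparableClass
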