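import Pool.Agent.RTP.HRaw

/-!
# `RCA₀`: `RT²₂(p)` implies `RT²₂` for all colourings which omit a pattern of size 3

In particular for semitransitive colourings, for every separable permutation `p`.
-/

namespace Pool.Agent.Results.MP_29428b_lc.OmittedTriple

open RT22P

/-- In every model `(M, S)` of `RCA_0`, for every separable permutation `p`, `RT^2_2(p)` implies
`RT^2_2` for all colourings which omit at least one of the eight patterns of size 3 on an infinite
set. -/
theorem result (M : Type) [Zero M] [One M] [Add M] [Mul M] [LT M] (S : Set (Set M))
    (hS : IsRCA0 S) (p : List ℕ) (hp : Separable p) (h : RT22p S p) : RT22Omit3 S :=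
  final_omit3 hS hp h

end Pool.Agent.Results.MP_29428b_lc.OmittedTriple
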