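import Pool.Agent.RTP.FinI2

/-!
# `RCA_0 + ISigma_2`: `RT^2_2(p)` implies `RT^2_2` for every separable permutation `p`
-/

namespace Pool.Agent.Results.MP_29428b_lc.SeparableISigmaTwo

open RT22P

/-- In every model `(M, S)` of `RCA_0` with induction for `Sigma^0_2` formulas, `RT^2_2(p)`
implies `RT^2_2`, for every separable permutation `p`. -/
theorem result (M : Type) [Zero M] [One M] [Add M] [Mul M] [LT M] (S : Set (Set M))
    (hS : IsRCA0 S) (hI : ISigma2 S) (p : List ℕ) (hp : Separable p) (h : RT22p S p) :
    RT22 S :=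
  final_I2 hS hI hp h

end Pool.Agent.Results.MP_29428b_lc.SeparableISigmaTwo
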